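import Pool.Agent.helper11.VDI.SpecU

set_option autoImplicit false

/-! Row vdi:FNWU (MP_07c750_an), adaptation of helper23/VDI/FNWF.lean -/

open scoped ContDiff Topology InnerProductSpace ENNReal ComplexConjugate
open MeasureTheory Filter Set

namespace Pool.Agent.VDI

open Pool.Agent.RPQ (PN PJ UN upd IsOp)
open Pool.Agent.VQ (CH AdZ perZ rk)
open Pool.Agent.VN (aN)
open Pool.Agent.VD
open Pool.Agent.VDE (UWLD FDX)

theorem FNWU_tr (hFTR : VD.FTR_stmt) {d : ℕ} {Γ : Type} [Group Γ] [MulAction Γ (V d)] {K F0 F : Set (V d)}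
    (hfd : FdK Γ K) (hfx : FDX Γ K F0) {A : Set (V d → V d →L[ℝ] V d)} (hA : ∀ G ∈ A, IsMetric G ∧ IsoE Γ G)
    (hF : IsFundamentalDomain Γ F (volume : Measure (V d))) (hq : QUS Γ F0 A) : QUS Γ F A := by
  intro h hh hinv ε hε
  obtain ⟨μ₀, hμ⟩ := hq h hh hinv ε hε
  refine ⟨μ₀, fun G hG μ φ h1 h2 => ?_⟩
  have key := (hFTR d Γ K F0 F G hfd hfx (hA G hG).1 (hA G hG).2 hF).1
  have e1 := key (fun x => h x * ‖φ x‖ ^ 2) (fun γ x => by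
    show h (γ • x) * ‖φ (γ • x)‖ ^ 2 = h x * ‖φ x‖ ^ 2
    rw [hinv γ x, h2.2.1 γ x])
  have e2 := key (fun x => ‖φ x‖ ^ 2) (fun γ x => by
    show ‖φ (γ • x)‖ ^ 2 = ‖φ x‖ ^ 2
    rw [h2.2.1 γ x])
  have e3 := key h hinv
  have e4 := key (fun _ => 1) (fun _ _ => rfl)
  simp only [one_mul] at e4
  rw [e1, e2, e3, e4]
  exact hμ G hG μ φ h1 h2

theorem FNWU_proof (hFNFU : FNFU_stmt) (hFTR : VD.FTR_stmt) (hNGB : NGB_stmt) (hFPS : VD.FPS_stmt) (hDFD : VD.DFD_stmt) (hCFC : VD.CFC_stmt) (hRSM : RPQ.RSM_stmt) : FNWU_stmt := by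
  intro d Γ _ _ hd hsm hfr hpr hco
  obtain ⟨K0, hK0, hK0c⟩ := hco
  obtain ⟨r, hr⟩ := hK0.isBounded.subset_closedBall (0 : V d)
  have hfd : FdK Γ (Metric.closedBall (0 : V d) r) := ⟨isCompact_closedBall _ _, convex_closedBall _ _, fun x => by
    obtain ⟨γ, hγ⟩ := hK0c x
    exact ⟨γ, hr hγ⟩, hsm, hfr, hpr⟩
  obtain ⟨-, F0, hF1, hF2, hF3⟩ := hDFD d Γ _ hfd
  have hfx : FDX Γ (Metric.closedBall (0 : V d) r) F0 := ⟨hF1, hF2, hF3⟩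
  obtain ⟨k₀, J, u, hJ, h1, h2, h3, h4⟩ := hFNFU d Γ _ F0 hd hfd hfx
  refine ⟨k₀, J, u, hJ, h1, h2, h3, ?_⟩
  intro m Gs hGs1 hGs2 hGs3
  have hS : SFm Γ m Gs := ⟨hGs1, hGs2, hGs3⟩
  have hSinv : ∀ ξ : ℕ × ℕ → ℝ, Inv Γ (fun x => ∑' k, ∑ j ∈ Finset.range (J k), ξ (k, j) * u k j x) := by
    intro ξ γ x
    refine tsum_congr fun k => Finset.sum_congr rfl fun j _ => ?_
    rw [(h1 k j).2.1 γ x]
  have hmain : ∀ᵐ ξ ∂(Measure.infinitePi fun _ : ℕ × ℕ => UN), ∀ S : Set (V m), IsCompact S → (∀ s ∈ S, NegativelyCurved (cfm (fun x => ∑' k, ∑ j ∈ Finset.range (J k), ξ (k, j) * u k j x) (Gs s))) →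
          ∀ F : Set (V d), IsFundamentalDomain Γ F (volume : Measure (V d)) → QUS Γ F ((fun s => cfm (fun x => ∑' k, ∑ j ∈ Finset.range (J k), ξ (k, j) * u k j x) (Gs s)) '' S) := by
    have h5 := h4 m Gs hS
    have h6 := hRSM.2.1
    unfold PN at h5 h6
    filter_upwards [h5, h6] with ξ hξ hb S hSc hneg F hF
    refine FNWU_tr hFTR hfd hfx ?_ hF (hξ S hSc hneg)
    rintro _ ⟨s, -, rfl⟩
    exact ⟨(hCFC d).1 _ _ (h3 ξ hb) (hS.met s), FNWE_iso (hS.iso s) (hSinv ξ)⟩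
  refine ⟨hmain, ?_⟩
  intro S hSc hneg L' n₀ τ hL' hτ
  obtain ⟨σ, hσ, hσn⟩ := hNGB d Γ _ m Gs S hfd hS hSc hneg
  rw [pos_iff_ne_zero]
  intro hzero
  have hτ' : 0 < min τ σ := lt_min hτ hσ
  obtain ⟨ξ, hξ1, ⟨hξ2, hξ3⟩, hξ4⟩ := hFPS d J u (fun k j => (h1 k j).1) h2 _ (hmain.and (measure_eq_zero_iff_ae_notMem.1 hzero)) (L' ∪ Metric.closedBall (0 : V d) r) (max n₀ 2) (min τ σ) (hL'.union (isCompact_closedBall _ _)) hτ'
  have hneg2 : ∀ s ∈ S, NegativelyCurved (cfm (fun x => ∑' k, ∑ j ∈ Finset.range (J k), ξ (k, j) * u k j x) (Gs s)) := by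
    refine hσn _ (h3 ξ hξ1) (hSinv ξ) fun n hn x hx => ?_
    exact (hξ4 n (hn.trans (le_max_right _ _)) x (Or.inr hx)).trans (min_le_right _ _)
  exact hξ3 ⟨fun n hn x hx => (hξ4 n (hn.trans (le_max_left _ _)) x (Or.inl hx)).trans (min_le_left _ _),
    hneg2, hξ2 S hSc hneg2⟩

end Pool.Agent.VDI
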