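import Pool.Agent.helper11.VDI.SpecU

set_option autoImplicit false

/-! Row vdi:PODU (MP_07c750_an) -/

open scoped ContDiff Topology InnerProductSpace ENNReal ComplexConjugate
open MeasureTheory Filter Set

namespace Pool.Agent.VDI

open Pool.Agent.RPQ (PN PJ UN upd IsOp)
open Pool.Agent.VQ (CH AdZ perZ rk)
open Pool.Agent.VN (aN)
open Pool.Agent.VD
open Pool.Agent.VDE (UWLD FDX)

theorem PODU_proof (hPODF : PODF_stmt) (hNGM : NGM_stmt) (hNGQ : NGQ_stmt) (hCFC : VD.CFC_stmt) (hFBL : FBL_stmt) (hLBZ : LBZ_stmt) : PODU_stmt := by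
  intro d Γ _ _ K m Gs b S hK hS
  obtain ⟨B, hB⟩ := hPODF d Γ K m Gs b S hK hS
  refine ⟨B, ?_⟩
  intro s0 hs0 f hf hfi hfb hneg
  have hG0 : IsMetric (cfm f (Gs s0)) := (hCFC d).1 f (Gs s0) hf (hS.met s0)
  obtain ⟨q, σ1, hq, hσ1, hQ⟩ := hNGQ d K (cfm f (Gs s0)) hK.compact hG0 hneg
  obtain ⟨σ2, hσ2, hM⟩ := hNGM d Γ K (cfm f (Gs s0)) hK hG0 (FNWE_iso (hS.iso s0) hfi) hneg
  obtain ⟨R, hR⟩ := hK.compact.isBounded.exists_norm_le
  obtain ⟨m', hm'⟩ := exists_nat_ge R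
  have hKm : ∀ x ∈ K, ‖x‖ ≤ (m' : ℝ) := fun x hx => (hR x hx).trans hm'
  obtain ⟨b', hb1, hb2, -, hb4⟩ := hFBL d m Gs S hS.smooth hS.met
  set M : ℝ := b' m' 0 + b' m' 1 + b' m' 2 + |b m' 0| + |b m' 1| + |b m' 2| with hMdef
  have hM0 : ∀ i ≤ 2, b' m' i ≤ M ∧ b m' i ≤ M := by
    intro i hi
    have h0 := hb1 m' 0
    have h1 := hb1 m' 1
    have h2 := hb1 m' 2
    have a0 := abs_nonneg (b m' 0)
    have a1 := abs_nonneg (b m' 1)
    have a2 := abs_nonneg (b m' 2)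
    have c0 := le_abs_self (b m' 0)
    have c1 := le_abs_self (b m' 1)
    have c2 := le_abs_self (b m' 2)
    interval_cases i <;> constructor <;> simp only [hMdef] <;> linarith
  have hM1 : 1 ≤ M := (hb1 m' 0).trans (hM0 0 (by norm_num)).1
  have hMp : 0 < M := by linarith
  have hall : ∃ C : ℝ, 1 ≤ C ∧ ∀ n ≤ 2, (∀ (f f' : V d → ℝ) (G : V d → V d →L[ℝ] V d) (x : V d) (s : ℝ), ContDiff ℝ ∞ f → ContDiff ℝ ∞ f' → IsMetric G → 0 ≤ s → s ≤ 1 → (∀ i ≤ n, ‖iteratedFDeriv ℝ i f x‖ ≤ M ∧ ‖iteratedFDeriv ℝ i f' x‖ ≤ M ∧ ‖iteratedFDeriv ℝ i G x‖ ≤ M) →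
        (∀ i ≤ n, ‖iteratedFDeriv ℝ i (fun y => f y - f' y) x‖ ≤ s) → ‖iteratedFDeriv ℝ n (fun y => cfm f G y - cfm f' G y) x‖ ≤ C * s) ∧
      (∀ (f : V d → ℝ) (A : V d → V d →L[ℝ] V d) (x : V d) (s : ℝ), ContDiff ℝ ∞ f → ContDiff ℝ ∞ A → 0 ≤ s → (∀ i ≤ n, ‖iteratedFDeriv ℝ i f x‖ ≤ M ∧ ‖iteratedFDeriv ℝ i A x‖ ≤ s) →
        ‖iteratedFDeriv ℝ n (fun y => Real.exp (f y) • A y) x‖ ≤ C * s) := by
    obtain ⟨C0, c0, h0⟩ := (hCFC d).2 0 M hM1
    obtain ⟨C1, c1, h1⟩ := (hCFC d).2 1 M hM1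
    obtain ⟨C2, c2, h2⟩ := (hCFC d).2 2 M hM1
    obtain ⟨D0, d0, e0⟩ := hLBZ d 0 M hM1
    obtain ⟨D1, d1, e1⟩ := hLBZ d 1 M hM1
    obtain ⟨D2, d2, e2⟩ := hLBZ d 2 M hM1
    refine ⟨C0 + C1 + C2 + D0 + D1 + D2, by linarith, ?_⟩
    intro n hn
    interval_cases n
    · refine ⟨fun f f' G x s p1 p2 p3 p4 p5 p6 p7 => ((h0 f f' G x s p1 p2 p3 p4 p5 p6).2 p7).trans ?_,
        fun f A x s p1 p2 p3 p4 => (e0 f A x s p1 p2 p3 p4).trans ?_⟩
      · exact mul_le_mul_of_nonneg_right (by linarith) p4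
      · exact mul_le_mul_of_nonneg_right (by linarith) p3
    · refine ⟨fun f f' G x s p1 p2 p3 p4 p5 p6 p7 => ((h1 f f' G x s p1 p2 p3 p4 p5 p6).2 p7).trans ?_,
        fun f A x s p1 p2 p3 p4 => (e1 f A x s p1 p2 p3 p4).trans ?_⟩
      · exact mul_le_mul_of_nonneg_right (by linarith) p4
      · exact mul_le_mul_of_nonneg_right (by linarith) p3
    · refine ⟨fun f f' G x s p1 p2 p3 p4 p5 p6 p7 => ((h2 f f' G x s p1 p2 p3 p4 p5 p6).2 p7).trans ?_,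
        fun f A x s p1 p2 p3 p4 => (e2 f A x s p1 p2 p3 p4).trans ?_⟩
      · exact mul_le_mul_of_nonneg_right (by linarith) p4
      · exact mul_le_mul_of_nonneg_right (by linarith) p3
  obtain ⟨C, hC1, hC⟩ := hall
  have hCp : 0 < C := by linarith
  set τ : ℝ := min σ1 σ2 with hτ
  have hτp : 0 < τ := lt_min hσ1 hσ2
  set σ : ℝ := min 1 (τ / (2 * C * M)) with hσ
  have hσp : 0 < σ := lt_min one_pos (by positivity)
  have hσle : C * (M * σ) ≤ τ / 2 := by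
    calc C * (M * σ) ≤ C * (M * (τ / (2 * C * M))) :=
          mul_le_mul_of_nonneg_left (mul_le_mul_of_nonneg_left (min_le_right _ _) hMp.le) hCp.le
      _ = τ / 2 := by field_simp
  have hσle2 : C * σ ≤ τ / 2 := by
    refine le_trans ?_ hσle
    refine mul_le_mul_of_nonneg_left ?_ hCp.le
    calc σ = 1 * σ := (one_mul _).symm
      _ ≤ M * σ := mul_le_mul_of_nonneg_right hM1 hσp.le
  refine ⟨q, σ, hq, hσp, ?_⟩
  intro s hs hss f' hf' hf'i hf'b hcl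
  have hG' : IsMetric (cfm f' (Gs s)) := (hCFC d).1 f' (Gs s) hf' (hS.met s)
  have hclose : ∀ n ≤ 2, ∀ x ∈ K, ‖iteratedFDeriv ℝ n (fun y => cfm f (Gs s0) y - cfm f' (Gs s) y) x‖ ≤ τ := by
    intro n hn x hx
    have hx' := hKm x hx
    have cA : ContDiff ℝ ∞ (fun y => Gs s0 y - Gs s y) := (hS.met s0).smooth.sub (hS.met s).smooth
    have cc1 : ContDiff ℝ ∞ (fun y => Real.exp (f y) • (Gs s0 y - Gs s y)) := hf.exp.smul cA
    have cc2 : ContDiff ℝ ∞ (fun y => cfm f (Gs s) y - cfm f' (Gs s) y) :=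
      ((hCFC d).1 f (Gs s) hf (hS.met s)).smooth.sub hG'.smooth
    have e1 : (fun y => cfm f (Gs s0) y - cfm f' (Gs s) y) =
        (fun y => Real.exp (f y) • (Gs s0 y - Gs s y)) + (fun y => cfm f (Gs s) y - cfm f' (Gs s) y) := by
      funext y
      simp only [Pi.add_apply, cfm, smul_sub]
      abel
    rw [e1, iteratedFDeriv_add_apply (cc1.contDiffAt.of_le (by exact_mod_cast le_top)) (cc2.contDiffAt.of_le (by exact_mod_cast le_top))]
    refine (norm_add_le _ _).trans ?_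
    have h1 := (hC n hn).2 f (fun y => Gs s0 y - Gs s y) x (M * σ) hf cA (by positivity) (fun i hi => by
      have hi2 : i ≤ 2 := hi.trans hn
      refine ⟨(hfb m' i x hx').trans (hM0 i hi2).2, (hb4 m' i s0 s x hs0 hs hx').trans ?_⟩
      have h3 : ‖s0 - s‖ ≤ σ := by rw [norm_sub_rev]; exact hss
      exact mul_le_mul (hM0 i hi2).1 h3 (norm_nonneg _) hMp.le)
    have h2 := (hC n hn).1 f f' (Gs s) x σ hf hf' (hS.met s) hσp.le (min_le_left _ _) (fun i hi => by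
      have hi2 : i ≤ 2 := hi.trans hn
      exact ⟨(hfb m' i x hx').trans (hM0 i hi2).2, (hf'b m' i x hx').trans (hM0 i hi2).2, (hb2 m' i s x hs hx').trans (hM0 i hi2).1⟩)
      (fun i hi => hcl i (hi.trans hn) x hx)
    linarith
  have hneg' : NegativelyCurved (cfm f' (Gs s)) :=
    hM (cfm f' (Gs s)) hG' (FNWE_iso (hS.iso s) hf'i) fun n hn x hx => (hclose n hn x hx).trans (min_le_right _ _)
  obtain ⟨q', σ', hq', hσ', hcls⟩ := hB s hs f' hf' hf'i hf'b hneg'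
  have hc := hcls f' hf' hf'i hf'b (fun n _ x _ => by
    have e2 : (fun y => f' y - f' y) = fun _ : V d => (0 : ℝ) := by
      funext y
      exact sub_self _
    rw [e2, iteratedFDeriv_fun_zero]
    simpa using hσ'.le)
  have hq0 : (0 : ℝ) < q := by exact_mod_cast hq
  exact ⟨hc.met, hc.isom, by positivity, hc.lo, hc.bd, hQ (cfm f' (Gs s)) hG' fun n hn x hx => (hclose n hn x hx).trans (min_le_left _ _)⟩

end Pool.Agent.VDI
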